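import Pool.Agent.H217_LR.Xor

/-!
# Certificates for functions whose ones are closed under intersection
-/

set_option autoImplicit false

namespace Pool.Agent.H217_LR

open Finset Pool.Agent.TH744.LR

/-- In an intersection-closed family of subsets of `𝓑` without singletons half of the elements
span no nonempty member. -/
theorem half_free {α : Type} [DecidableEq α] (B : Finset α) (g : Finset α → Prop)
    (h1 : ∀ b ∈ B, ¬ g {b})
    (h2 : ∀ C ⊆ B, ∀ D ⊆ B, g C → g D → g (C ∩ D)) :
    ∃ T ⊆ B, B.card ≤ 2 * T.card ∧ ∀ C ⊆ T, C.Nonempty → ¬ g C := by
  classical
  obtain ⟨T, hT, hmax⟩ := Finset.exists_max_image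
    (B.powerset.filter fun T => ∀ C ⊆ T, C.Nonempty → ¬ g C) Finset.card
    ⟨∅, by simp only [mem_filter, mem_powerset, empty_subset, true_and]
           intro C hC hn
           rw [subset_empty] at hC
           subst hC
           exact absurd hn (by simp)⟩
  rw [mem_filter, mem_powerset] at hT
  refine ⟨T, hT.1, ?_, hT.2⟩
  have hex : ∀ t ∈ B \ T, ∃ C ⊆ insert t T, t ∈ C ∧ g C := by
    intro t ht
    rw [mem_sdiff] at ht
    by_contra hc
    push Not at hc
    have : insert t T ∈ B.powerset.filter fun T => ∀ C ⊆ T, C.Nonempty → ¬ g C := by
      rw [mem_filter, mem_powerset]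
      refine ⟨insert_subset ht.1 hT.1, fun C hC hn => ?_⟩
      by_cases htC : t ∈ C
      · exact hc C hC htC
      · refine hT.2 C (fun x hx => ?_) hn
        rcases mem_insert.1 (hC hx) with e | e
        · subst e; exact absurd hx htC
        · exact e
    have h3 := hmax _ this
    rw [card_insert_of_notMem ht.2] at h3
    omega
  choose! C hC1 hC2 hC3 using hex
  -- a further element
  have hex2 : ∀ t ∈ B \ T, ∃ u ∈ C t, u ∈ T := by
    intro t ht
    by_contra hc
    push Not at hc
    have : C t = {t} := by
      ext x
      rw [mem_singleton]
      constructor
      · intro hx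
        rcases mem_insert.1 (hC1 t ht hx) with e | e
        · exact e
        · exact absurd e (hc x hx)
      · rintro rfl
        exact hC2 x ht
    have h4 := hC3 t ht
    rw [this] at h4
    exact h1 t (mem_sdiff.1 ht).1 h4
  choose! u hu1 hu2 using hex2
  have hinj : Set.InjOn u (B \ T : Finset α) := by
    intro t ht t' ht' e
    by_contra hne
    have ht := mem_coe.1 ht
    have ht' := mem_coe.1 ht'
    have hsub : ∀ s ∈ B \ T, C s ⊆ B := fun s hs =>
      (hC1 s hs).trans (insert_subset (mem_sdiff.1 hs).1 hT.1)
    have hg := h2 _ (hsub t ht) _ (hsub t' ht') (hC3 t ht) (hC3 t' ht')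
    refine hT.2 (C t ∩ C t') ?_ ⟨u t, mem_inter.2 ⟨hu1 t ht, e ▸ hu1 t' ht'⟩⟩ hg
    intro x hx
    rw [mem_inter] at hx
    rcases mem_insert.1 (hC1 t ht hx.1) with e1 | e1
    · rcases mem_insert.1 (hC1 t' ht' hx.2) with e2 | e2
      · exact absurd (e1.symm.trans e2) hne
      · exact e2
    · exact e1
  have hcard : (B \ T).card ≤ T.card := by
    refine Finset.card_le_card_of_injOn u (fun t ht => hu2 t ht) hinj
  rw [card_sdiff_of_subset hT.1] at hcard
  omega

/-- the indicator vector -/
def ind {n : ℕ} (A : Finset (Fin n)) : V n := fun i => if i ∈ A then 1 else 0

theorem ind_mul {n : ℕ} (A B : Finset (Fin n)) : ind A * ind B = ind (A ∩ B) := by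
  funext i
  by_cases h : i ∈ A <;> by_cases h' : i ∈ B <;> simp [ind, h, h']

theorem eq_ind {n : ℕ} (x : V n) : x = ind (univ.filter fun i => x i = 1) := by
  funext i
  rcases z2 (x i) with h | h <;> simp [ind, h]

theorem le_of_pow {t l s : ℕ} (h : 2 ^ t ≤ s + 1) (hs : s < 2 ^ l) : t ≤ l := by
  have : 2 ^ t ≤ 2 ^ l := h.trans hs
  exact (Nat.pow_le_pow_iff_right (by norm_num)).1 this

theorem stage {n : ℕ} (f : V n → Bool) (h0 : f 0 = true)
    (hm : ∀ x y, f x = true → f y = true → f (x * y) = true) (l : ℕ) (hl : sd (xf f) < 2 ^ l) :
    ∃ U : Finset (Fin n), U.card ≤ 2 * l ^ 2 ∧ ∀ x, f (put U 0 x) = true := by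
  classical
  have hind0 : ind (∅ : Finset (Fin n)) = 0 := by
    funext i; simp [ind]
  -- minimal nonmembers
  let N : Finset (Finset (Fin n)) := univ.filter fun A => f (ind A) = false ∧
    ∀ A' ⊂ A, f (ind A') = true
  have hN : ∀ A : Finset (Fin n), f (ind A) = false → ∃ A' ⊆ A, A' ∈ N := by
    intro A
    induction A using Finset.strongInduction with
    | H A ih =>
      intro hA
      by_cases h : ∀ A' ⊂ A, f (ind A') = true
      · exact ⟨A, subset_rfl, by simp only [N, mem_filter, mem_univ, true_and]; exact ⟨hA, h⟩⟩
      · push Not at h
        obtain ⟨A', hA', hf⟩ := h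
        obtain ⟨A'', h1, h2⟩ := ih A' hA' (by simpa using hf)
        exact ⟨A'', h1.trans hA'.1, h2⟩
  have hne : ∀ A ∈ N, A.Nonempty := by
    intro A hA
    rw [Finset.nonempty_iff_ne_empty]
    rintro rfl
    simp only [N, mem_filter, hind0, h0] at hA
    exact absurd hA.2.1 (by simp)
  obtain ⟨B, hB, hmax⟩ := Finset.exists_max_image
    (N.powerset.filter fun B : Finset (Finset (Fin n)) =>
      ((B : Set (Finset (Fin n))).PairwiseDisjoint id)) Finset.card
    ⟨∅, by simp⟩
  rw [mem_filter, mem_powerset] at hB
  obtain ⟨hBN, hBd⟩ := hB
  refine ⟨B.biUnion id, ?_, ?_⟩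
  · -- sizes of the blocks
    have hsize : ∀ A ∈ B, A.card ≤ l := by
      intro A hA
      have hAN := hBN hA
      simp only [N, mem_filter, mem_univ, true_and] at hAN
      let φ : (A → ZMod 2) →+ V n :=
        { toFun := fun w i => if h : i ∈ A then w ⟨i, h⟩ else 0
          map_zero' := by funext i; simp
          map_add' := by
            intro w w'
            funext i
            by_cases h : i ∈ A <;> simp [h] }
      have h1 : ∀ w, f (φ w) = !decide (w = 1) := by
        intro w
        by_cases hw : w = 1
        · subst hw
          have : φ 1 = ind A := by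
            funext i
            by_cases h : i ∈ A <;> simp [φ, ind, h]
          rw [this, hAN.1]
          simp
        · have h2 : φ w = ind (univ.filter fun i => φ w i = 1) := eq_ind _
          have h3 : (univ.filter fun i => φ w i = 1) ⊂ A := by
            rw [Finset.ssubset_iff_of_subset]
            · by_contra hc
              push Not at hc
              apply hw
              funext ⟨i, hi⟩
              have := hc i hi
              simp only [mem_filter, mem_univ, true_and, φ, AddMonoidHom.coe_mk,
                ZeroHom.coe_mk, hi, dif_pos] at this
              exact this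
            · intro i hi
              by_contra hc
              simp [φ, hc] at hi
          rw [h2, hAN.2 _ h3]
          simp [hw]
      have h4 := coid_inside f φ h1
      rw [Fintype.card_coe] at h4
      exact le_of_pow h4 hl
    -- the number of the blocks
    obtain ⟨T, hTB, hBT, hT⟩ := half_free B (fun C => f (ind (C.biUnion id)) = true)
      (by
        intro b hb
        have := hBN hb
        simp only [N, mem_filter, mem_univ, true_and] at this
        simp [this.1])
      (by
        intro C hC D hD h1 h2
        have h3 := hm _ _ h1 h2
        rw [ind_mul] at h3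
        have : C.biUnion id ∩ D.biUnion id = (C ∩ D).biUnion id := by
          ext i
          simp only [mem_inter, mem_biUnion, id]
          constructor
          · rintro ⟨⟨A, hA, hiA⟩, ⟨A', hA', hiA'⟩⟩
            have : A = A' := by
              by_contra hne'
              exact Finset.disjoint_left.1 (hBd (hC hA) (hD hA') hne') hiA hiA'
            subst this
            exact ⟨A, ⟨hA, hA'⟩, hiA⟩
          · rintro ⟨A, ⟨hA, hA'⟩, hiA⟩
            exact ⟨⟨A, hA, hiA⟩, ⟨A, hA', hiA⟩⟩
        show f (ind ((C ∩ D).biUnion id)) = true
        rw [← this]
        exact h3)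
    have hTl : T.card ≤ l := by
      let φ : (T → ZMod 2) →+ V n :=
        { toFun := fun w i => ∑ A : T, if i ∈ A.1 then w A else 0
          map_zero' := by funext i; simp
          map_add' := by
            intro w w'
            funext i
            simp only [Pi.add_apply]
            rw [← Finset.sum_add_distrib]
            refine Finset.sum_congr rfl fun A _ => ?_
            by_cases h : i ∈ A.1 <;> simp [h] }
      have h1 : ∀ w, f (φ w) = decide (w = 0) := by
        intro w
        by_cases hw : w = 0
        · subst hw
          rw [map_zero, h0]
          simp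
        · let C : Finset (Finset (Fin n)) := (univ.filter fun A : T => w A = 1).image Subtype.val
          have hCT : C ⊆ T := by
            intro A hA
            simp only [C, mem_image, mem_filter, mem_univ, true_and] at hA
            obtain ⟨A', _, rfl⟩ := hA
            exact A'.2
          have hCn : C.Nonempty := by
            by_contra hc
            rw [Finset.not_nonempty_iff_eq_empty] at hc
            apply hw
            funext A
            rcases z2 (w A) with e | e
            · exact e
            · exfalso
              have : A.1 ∈ C := by
                simp only [C, mem_image, mem_filter, mem_univ, true_and]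
                exact ⟨A, e, rfl⟩
              rw [hc] at this
              simp at this
          have h2 : φ w = ind (C.biUnion id) := by
            funext i
            have hval : φ w i = ∑ A : T, if i ∈ A.1 then w A else 0 := rfl
            rw [hval]
            by_cases h : ∃ A : T, i ∈ A.1
            · obtain ⟨A, hA⟩ := h
              rw [Finset.sum_eq_single A]
              · rw [if_pos hA]
                rcases z2 (w A) with e | e
                · rw [e]
                  have : i ∉ C.biUnion id := by
                    simp only [C, mem_biUnion, mem_image, mem_filter, mem_univ, true_and, id]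
                    rintro ⟨_, ⟨A', hA', rfl⟩, hi⟩
                    have : A = A' := by
                      by_contra hne'
                      exact Finset.disjoint_left.1 (hBd (hTB A.2) (hTB A'.2)
                        (fun e => hne' (Subtype.ext e))) hA hi
                    subst this
                    rw [e] at hA'
                    exact absurd hA' (by decide)
                  simp [ind, this]
                · rw [e]
                  have : i ∈ C.biUnion id := by
                    simp only [C, mem_biUnion, mem_image, mem_filter, mem_univ, true_and, id]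
                    exact ⟨A.1, ⟨A, e, rfl⟩, hA⟩
                  simp [ind, this]
              · intro A' _ hne'
                rw [if_neg]
                intro hi
                exact Finset.disjoint_left.1 (hBd (hTB A.2) (hTB A'.2)
                  (fun e => hne' (Subtype.ext e.symm))) hA hi
              · intro h
                exact absurd (mem_univ _) h
            · push Not at h
              rw [Finset.sum_eq_zero fun A _ => if_neg (h A)]
              have : i ∉ C.biUnion id := by
                simp only [mem_biUnion, id, not_exists, not_and]
                intro A hA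
                exact h ⟨A, hCT hA⟩
              simp [ind, this]
          have h3 := hT C hCT hCn
          rw [h2]
          simp only [hw, decide_false]
          simpa using h3
      have h4 := id_inside f φ h1
      rw [Fintype.card_coe] at h4
      exact le_of_pow h4 hl
    calc (B.biUnion id).card ≤ ∑ A ∈ B, A.card := Finset.card_biUnion_le
      _ ≤ ∑ _A ∈ B, l := Finset.sum_le_sum hsize
      _ = B.card * l := by rw [Finset.sum_const, smul_eq_mul]
      _ ≤ (2 * T.card) * l := Nat.mul_le_mul_right _ hBT
      _ ≤ (2 * l) * l := Nat.mul_le_mul_right _ (Nat.mul_le_mul_left _ hTl)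
      _ = 2 * l ^ 2 := by ring
  · intro x
    by_contra hx
    have hx' : f (put (B.biUnion id) 0 x) = false := by simpa using hx
    rw [eq_ind (put (B.biUnion id) 0 x)] at hx'
    obtain ⟨A, hA1, hA2⟩ := hN _ hx'
    have hAU : ∀ i ∈ A, i ∉ B.biUnion id := by
      intro i hi hiU
      have := hA1 hi
      rw [mem_filter] at this
      have h2 := this.2
      rw [put, if_pos hiU] at h2
      exact absurd h2 (by simp)
    have hAB : A ∉ B := by
      intro hAB
      obtain ⟨i, hi⟩ := hne A hA2
      exact hAU i hi (mem_biUnion.2 ⟨A, hAB, hi⟩)
    have h3 : insert A B ∈ N.powerset.filter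
        fun B : Finset (Finset (Fin n)) =>
          ((B : Set (Finset (Fin n))).PairwiseDisjoint id) := by
      rw [mem_filter, mem_powerset]
      refine ⟨insert_subset hA2 hBN, ?_⟩
      rw [coe_insert]
      refine hBd.insert ?_
      intro A' hA' _
      show Disjoint A A'
      rw [Finset.disjoint_left]
      intro i hi hi'
      exact hAU i hi (mem_biUnion.2 ⟨A', hA', hi'⟩)
    have h4 := hmax _ h3
    rw [card_insert_of_notMem hAB] at h4
    omega

end Pool.Agent.H217_LR
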