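import Pool.Agent.H217_LR.Blocks

/-!
# Protocols for the four minimal closure conditions
-/

set_option autoImplicit false

namespace Pool.Agent.H217_LR

open Finset Pool.Agent.TH744.LR

theorem mul_self' {n : ℕ} (a : V n) : a * a = a := by
  funext i
  rcases z2 (a i) with h | h <;> simp [h]

theorem sum_sq (l : ℕ) : ∑ j ∈ range l, (j + 1) ^ 2 ≤ l ^ 3 := by
  calc ∑ j ∈ range l, (j + 1) ^ 2 ≤ ∑ _j ∈ range l, l ^ 2 := by
        refine Finset.sum_le_sum fun j hj => ?_
        rw [mem_range] at hj
        exact Nat.pow_le_pow_left (by omega) 2
    _ = l ^ 3 := by rw [Finset.sum_const, card_range, smul_eq_mul]; ring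

/-- closed under products -/
theorem and_prot {n : ℕ} (l : ℕ) (f : V n → Bool)
    (hm : ∀ x y, f x = true → f y = true → f (x * y) = true) (hl : sd (xf f) < 2 ^ l) :
    Prot (xf f) (4 * l ^ 3) := by
  classical
  refine (recursion (fun f : V n → Bool => ∀ x y, f x = true → f y = true → f (x * y) = true)
    (fun l => 2 * l ^ 2) ?_ ?_ l f hm hl).mono ?_
  · intro f U b hf x y hx hy
    have h := hf _ _ hx hy
    have e : put U b x * put U b y = put U b (x * y) := by
      funext i
      by_cases hi : i ∈ U
      · rcases z2 (b i) with h | h <;> simp [put, hi, h]
      · simp [put, hi]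
    rw [e] at h
    exact h
  · intro l f hf hl
    rcases (univ.filter fun x : V n => f x = true).eq_empty_or_nonempty with he | hne
    · left
      refine ⟨false, fun x => ?_⟩
      by_contra hx
      have : x ∈ (univ.filter fun x : V n => f x = true) := by simpa using hx
      rw [he] at this
      simp at this
    · right
      set S := univ.filter fun x : V n => f x = true with hS
      set z : V n := ∏ x ∈ S, x with hz
      have hzf : f z = true := by
        refine Finset.prod_induction_nonempty (fun x => x) (fun x => f x = true)
          (fun a b ha hb => hf a b ha hb) hne ?_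
        intro x hx
        simpa [hS] using hx
      have hzx : ∀ x, f x = true → z * x = z := by
        intro x hx
        have hxS : x ∈ S := by simp [hS, hx]
        rw [hz, ← Finset.mul_prod_erase S (fun x => x) hxS]
        rw [mul_comm, ← mul_assoc, mul_self']
      obtain ⟨U, hU, h⟩ := stage (fun x => f (z + x)) (by simpa using hzf) (by
          intro x y hx hy
          have h1 := hf _ _ hx hy
          have h2 := hzx _ hx
          have h3 := hzx _ hy
          rw [mul_add, mul_self'] at h2 h3
          have h4 : z * x = 0 := by simpa using h2
          have h5 : z * y = 0 := by simpa using h3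
          have h6 : (z + x) * (z + y) = z + x * y := by
            rw [add_mul, mul_add, mul_add, mul_self', h5, mul_comm x z, h4]
            simp
          rw [h6] at h1
          exact h1) l (by
          refine lt_of_le_of_lt ?_ hl
          refine le_trans (le_of_eq ?_) (sd_lift (xf f) (fun x => z + x) (fun y => y))
          congr 1
          funext x y
          simp only [xf, add_assoc])
      refine ⟨U, z, true, hU, fun x => ?_⟩
      have h1 := h (z + x)
      have e : z + put U 0 (z + x) = put U z x := by
        funext i
        by_cases hi : i ∈ U
        · simp [put, hi]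
        · simp only [put, hi, if_false, Pi.add_apply]
          rw [← add_assoc, CharTwo.add_self_eq_zero, zero_add]
      rw [← e]
      exact h1
  · have := sum_sq l
    have e : ∑ j ∈ range l, 2 * (j + 1) ^ 2 = 2 * ∑ j ∈ range l, (j + 1) ^ 2 := by
      rw [Finset.mul_sum]
    show 2 * ∑ j ∈ range l, 2 * (j + 1) ^ 2 ≤ 4 * l ^ 3
    rw [e]
    omega

/-- closed under `x ∨ y` -/
theorem or_prot {n : ℕ} (l : ℕ) (f : V n → Bool)
    (hm : ∀ x y, f x = true → f y = true → f (x + y + x * y) = true)
    (hl : sd (xf f) < 2 ^ l) : Prot (xf f) (4 * l ^ 3) := by
  have h := and_prot l (fun x => f (1 + x)) (by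
    intro x y hx hy
    have h1 := hm _ _ hx hy
    have e : 1 + x + (1 + y) + (1 + x) * (1 + y) = 1 + x * y := by
      funext i
      simp only [Pi.add_apply, Pi.mul_apply, Pi.one_apply]
      rcases z2 (x i) with h | h <;> rcases z2 (y i) with h' | h' <;> rw [h, h'] <;> decide
    rw [e] at h1
    exact h1) (by
    refine lt_of_le_of_lt ?_ hl
    refine le_trans (le_of_eq ?_) (sd_lift (xf f) (fun x => 1 + x) (fun y => y))
    congr 1
    funext x y
    simp only [xf, add_assoc])
  have h2 := h.lift (fun x : V n => 1 + x) (fun y : V n => y)
  have e : (fun x y => xf (fun x => f (1 + x)) (1 + x) y) = xf f := by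
    funext x y
    simp only [xf]
    congr 1
    rw [← add_assoc, ← add_assoc, add_self', zero_add]
  rw [e] at h2
  exact h2

/-- closed under the majority -/
theorem maj_prot {n : ℕ} (l : ℕ) (f : V n → Bool)
    (hm : ∀ x y z, f x = true → f y = true → f z = true → f (x * y + y * z + x * z) = true)
    (hl : sd (xf f) < 2 ^ l) : Prot (xf f) (4 * l ^ 3) := by
  classical
  refine (recursion (fun f : V n → Bool => ∀ x y z, f x = true → f y = true → f z = true →
    f (x * y + y * z + x * z) = true) (fun _ => 2) ?_ ?_ l f hm hl).mono ?_
  · intro f U b hf x y z hx hy hz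
    have h := hf _ _ _ hx hy hz
    have e : put U b x * put U b y + put U b y * put U b z + put U b x * put U b z =
        put U b (x * y + y * z + x * z) := by
      funext i
      by_cases hi : i ∈ U
      · simp only [put, hi, if_true, Pi.add_apply, Pi.mul_apply]
        rcases z2 (b i) with h | h <;> rw [h] <;> decide
      · simp [put, hi]
    rw [e] at h
    exact h
  · intro l f hf _
    by_cases hc : ∀ x, f x = true
    · exact Or.inl ⟨true, hc⟩
    · right
      push Not at hc
      obtain ⟨x0, hx0⟩ := hc
      by_contra hcon
      push Not at hcon
      -- every set of coordinates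
      have key : ∀ (m : ℕ) (U : Finset (Fin n)), U.card = m →
          ∃ x, f x = true ∧ ∀ i ∈ U, x i = x0 i := by
        intro m
        induction m with
        | zero =>
          intro U hU
          obtain ⟨x, hx⟩ := hcon ∅ x0 false (by simp)
          refine ⟨put ∅ x0 x, by simpa using hx, ?_⟩
          rw [Finset.card_eq_zero] at hU
          subst hU
          simp
        | succ m ih =>
          intro U hU
          by_cases hs : U.card ≤ 2
          · obtain ⟨x, hx⟩ := hcon U x0 false hs
            exact ⟨put U x0 x, by simpa using hx, fun i hi => by simp [put, hi]⟩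
          · obtain ⟨a, ha, b, hb, c, hc, hab, hac, hbc⟩ := Finset.two_lt_card.1
              (show 2 < U.card by omega)
            obtain ⟨x, hx, hx'⟩ := ih (U.erase a) (by rw [card_erase_of_mem ha]; omega)
            obtain ⟨y, hy, hy'⟩ := ih (U.erase b) (by rw [card_erase_of_mem hb]; omega)
            obtain ⟨z, hz, hz'⟩ := ih (U.erase c) (by rw [card_erase_of_mem hc]; omega)
            refine ⟨_, hf x y z hx hy hz, fun i hi => ?_⟩
            simp only [Pi.add_apply, Pi.mul_apply]
            have t1 : ∀ p q r : ZMod 2, q = p → r = p → ∀ s : ZMod 2,
                (s * q + q * r + s * r = p ∧ q * s + s * r + q * r = p ∧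
                q * r + r * s + q * s = p) := by decide
            by_cases hia : i = a
            · subst hia
              exact (t1 (x0 i) (y i) (z i) (hy' i (mem_erase.2 ⟨hab, hi⟩))
                (hz' i (mem_erase.2 ⟨hac, hi⟩)) (x i)).1
            · by_cases hib : i = b
              · subst hib
                exact (t1 (x0 i) (x i) (z i) (hx' i (mem_erase.2 ⟨hia, hi⟩))
                  (hz' i (mem_erase.2 ⟨hbc, hi⟩)) (y i)).2.1
              · exact (t1 (x0 i) (x i) (y i) (hx' i (mem_erase.2 ⟨hia, hi⟩))
                  (hy' i (mem_erase.2 ⟨hib, hi⟩)) (z i)).2.2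
      obtain ⟨x, hx, hx'⟩ := key _ univ rfl
      have : x = x0 := by
        funext i
        exact hx' i (mem_univ _)
      rw [this] at hx
      exact hx0 hx
  · rw [Finset.sum_const, card_range, smul_eq_mul]
    rcases Nat.eq_zero_or_pos l with h | h
    · subst h; simp
    · have : l ≤ l ^ 3 := Nat.le_self_pow (by norm_num) l
      omega

/-- closed under `x + y + z` -/
theorem aff_prot {n : ℕ} (l : ℕ) (f : V n → Bool)
    (hm : ∀ x y z, f x = true → f y = true → f z = true → f (x + y + z) = true)
    (hl : sd (xf f) < 2 ^ l) : Prot (xf f) (4 * l ^ 3) := by
  classical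
  rcases Nat.eq_zero_or_pos l with h0 | h0
  · subst h0
    obtain ⟨c, hc⟩ := const_xf f (by simpa using hl)
    have : xf f = fun _ _ => c := by
      funext x y; exact hc _
    rw [this]
    exact (Prot.const c).mono (by omega)
  · by_cases hs : ∃ s, f s = true
    · obtain ⟨s, hs⟩ := hs
      let r : Setoid (V n) :=
        { r := fun x x' => ∀ y, f (x + y) = f (x' + y)
          iseqv := ⟨fun _ _ => rfl, fun h y => (h y).symm, fun h h' y => (h y).trans (h' y)⟩ }
      have hrep : ∀ x : V n, ∀ y, f ((Quotient.mk r x).out + y) = f (x + y) := by
        intro x y
        exact Quotient.exact (Quotient.out_eq (Quotient.mk r x)) y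
      have hcard : Fintype.card (Quotient r) ≤ sd (xf f) + 1 := by
        refine (sd_id (Quotient r)).trans ?_
        refine Nat.add_le_add_right ?_ 1
        refine le_trans (le_of_eq ?_) (sd_lift (xf f) (fun q : Quotient r => q.out)
          (fun q : Quotient r => q.out + s))
        congr 1
        funext q q'
        simp only [xf]
        by_cases hq : q = q'
        · subst hq
          rw [← add_assoc, add_self', zero_add, hs]
          simp
        · have : f (q.out + (q'.out + s)) = false := by
            by_contra hc
            have hc : f (q.out + (q'.out + s)) = true := by simpa using hc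
            apply hq
            rw [← Quotient.out_equiv_out]
            intro y
            have h1 : ∀ a b : V n, f (a + (b + s)) = true → f (a + y) = true →
                f (b + y) = true := by
              intro a b h2 h3
              have h4 := hm _ _ _ h3 h2 hs
              have e : a + y + (a + (b + s)) + s = b + y := by
                funext i
                simp only [Pi.add_apply]
                rcases z2 (a i) with h | h <;> rcases z2 (b i) with h' | h' <;>
                  rcases z2 (s i) with h'' | h'' <;> rcases z2 (y i) with h3 | h3 <;>
                  rw [h, h', h'', h3] <;> decide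
              rwa [e] at h4
            have h2 : f (q'.out + (q.out + s)) = true := by
              have : q'.out + (q.out + s) = q.out + (q'.out + s) := by
                rw [← add_assoc, ← add_assoc, add_comm q'.out]
              rw [this]; exact hc
            rw [Bool.eq_iff_iff]
            exact ⟨h1 _ _ hc, h1 _ _ h2⟩
          rw [this]
          simp [hq]
      have h1 := Prot.of_card (fun (q : Quotient r) (y : V n) => xf f q.out y) l (by omega)
      have h2 := h1.lift (fun x : V n => Quotient.mk r x) (fun y : V n => y)
      have e : (fun (x y : V n) => xf f (Quotient.mk r x).out y) = xf f := by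
        funext x y
        exact hrep x y
      rw [e] at h2
      refine h2.mono ?_
      have : l ≤ l ^ 3 := Nat.le_self_pow (by norm_num) l
      omega
    · have : xf f = fun _ _ => false := by
        funext x y
        by_contra h
        exact hs ⟨x + y, by simpa [xf] using h⟩
      rw [this]
      exact (Prot.const false).mono (by omega)

end Pool.Agent.H217_LR
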