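import Mathlib

/-!
# Sets of Boolean vectors closed under an operation which is not essentially unary

Such a set is closed under `∧`, `∨`, the majority operation or `x + y + z`.
-/

set_option autoImplicit false

namespace Pool.Agent.H217_LR.Clone

open Finset

/-- terms in three variables and one ternary operation -/
inductive Tm
  | x | y | z
  | op (a b c : Tm)

def Tm.eval {α : Type} (g : α → α → α → α) (u v w : α) : Tm → α
  | .x => u
  | .y => v
  | .z => w
  | .op a b c => g (a.eval g u v w) (b.eval g u v w) (c.eval g u v w)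

/-- the ternary Boolean operation with a given table -/
def tab (b0 b1 b2 b3 b4 b5 b6 b7 : Bool) (x y z : Bool) : Bool :=
  cond x (cond y (cond z b7 b6) (cond z b5 b4)) (cond y (cond z b3 b2) (cond z b1 b0))

def good : Fin 8 → Bool → Bool → Bool → Bool
  | 0, x, y, _ => x && y
  | 1, x, _, z => x && z
  | 2, _, y, z => y && z
  | 3, x, y, _ => x || y
  | 4, x, _, z => x || z
  | 5, _, y, z => y || z
  | 6, x, y, z => (x && y) || (y && z) || (x && z)
  | 7, x, y, z => xor (xor x y) z

open Tm in
def terms : List Tm :=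
  [op (op x x y) (op y y x) (op x x y),
   op (op x x y) (op x y y) y,
   op x (op y z z) (op z y y),
   op x x (op x x y),
   op (op x y x) y (op x y y),
   op x (op x y x) x,
   op x (op x y y) (op x y y),
   op (op x y y) y (op y x z),
   op (op x y y) (op x y z) (op x x z),
   op (op x x x) y z,
   op x (op y x z) (op z x y),
   op (op x x x) (op x y x) z]

/-- depends on at most one variable -/
def un (g : Bool → Bool → Bool → Bool) : Bool :=
  (decide (∀ x y y' z z', g x y z = g x y' z')) ||
  (decide (∀ x x' y z z', g x y z = g x' y z')) ||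
  (decide (∀ x x' y y' z, g x y z = g x' y' z))

def isGood (h : Bool → Bool → Bool → Bool) (q : Fin 8) : Bool :=
  (h true true true == good q true true true) && (h true true false == good q true true false) &&
  (h true false true == good q true false true) &&
  (h true false false == good q true false false) &&
  (h false true true == good q false true true) &&
  (h false true false == good q false true false) &&
  (h false false true == good q false false true) &&
  (h false false false == good q false false false)

def check (g : Bool → Bool → Bool → Bool) : Bool :=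
  un g || terms.any fun t => (List.finRange 8).any fun q => isGood (fun x y z => t.eval g x y z) q

theorem key : ∀ b0 b1 b2 b3 b4 b5 b6 b7 : Bool, check (tab b0 b1 b2 b3 b4 b5 b6 b7) = true := by
  decide +kernel

theorem key' (g : Bool → Bool → Bool → Bool) (hg : un g = false) :
    ∃ t ∈ terms, ∃ q : Fin 8, ∀ x y z, t.eval g x y z = good q x y z := by
  have e : g = tab (g false false false) (g false false true) (g false true false)
      (g false true true) (g true false false) (g true false true) (g true true false)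
      (g true true true) := by
    funext x y z
    cases x <;> cases y <;> cases z <;> rfl
  have h := key (g false false false) (g false false true) (g false true false)
      (g false true true) (g true false false) (g true false true) (g true true false)
      (g true true true)
  rw [← e] at h
  unfold check at h
  rw [hg, Bool.false_or, List.any_eq_true] at h
  obtain ⟨t, ht, h⟩ := h
  rw [List.any_eq_true] at h
  obtain ⟨q, _, h⟩ := h
  refine ⟨t, ht, q, ?_⟩
  unfold isGood at h
  simp only [Bool.and_eq_true, beq_iff_eq] at h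
  obtain ⟨⟨⟨⟨⟨⟨⟨h1, h2⟩, h3⟩, h4⟩, h5⟩, h6⟩, h7⟩, h8⟩ := h
  intro x y z
  cases x <;> cases y <;> cases z <;> assumption

/-! ### over `ZMod 2` -/

def zb (a : ZMod 2) : Bool := decide (a = 1)
def bz (b : Bool) : ZMod 2 := if b then 1 else 0

theorem zb_bz (b : Bool) : zb (bz b) = b := by cases b <;> decide
theorem bz_zb (a : ZMod 2) : bz (zb a) = a := by revert a; decide

/-- closed under a ternary operation -/
def Cl3 {n : ℕ} (g : ZMod 2 → ZMod 2 → ZMod 2 → ZMod 2) (S : Set (Fin n → ZMod 2)) : Prop :=
  ∀ x ∈ S, ∀ y ∈ S, ∀ z ∈ S, (fun i => g (x i) (y i) (z i)) ∈ S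

theorem Cl3.term {n : ℕ} {g : ZMod 2 → ZMod 2 → ZMod 2 → ZMod 2} {S : Set (Fin n → ZMod 2)}
    (h : Cl3 g S) (t : Tm) : Cl3 (fun x y z => t.eval g x y z) S := by
  intro x hx y hy z hz
  induction t with
  | x => exact hx
  | y => exact hy
  | z => exact hz
  | op a b c iha ihb ihc => exact h _ iha _ ihb _ ihc

/-- the four minimal closure properties -/
def Min {n : ℕ} (S : Set (Fin n → ZMod 2)) : Prop :=
  (∀ x ∈ S, ∀ y ∈ S, x * y ∈ S) ∨ (∀ x ∈ S, ∀ y ∈ S, x + y + x * y ∈ S) ∨
  (∀ x ∈ S, ∀ y ∈ S, ∀ z ∈ S, x * y + y * z + x * z ∈ S) ∨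
  (∀ x ∈ S, ∀ y ∈ S, ∀ z ∈ S, x + y + z ∈ S)

/-- depends on at most one variable -/
def Un3 (g : ZMod 2 → ZMod 2 → ZMod 2 → ZMod 2) : Prop :=
  ∃ (m : Fin 3) (h : ZMod 2 → ZMod 2), ∀ x y z, g x y z = h (![x, y, z] m)

theorem min_of_cl3 {n : ℕ} {g : ZMod 2 → ZMod 2 → ZMod 2 → ZMod 2} {S : Set (Fin n → ZMod 2)}
    (h : Cl3 g S) (hg : ¬ Un3 g) : Min S := by
  let gb : Bool → Bool → Bool → Bool := fun x y z => zb (g (bz x) (bz y) (bz z))
  have hgb : ∀ x y z : ZMod 2, g x y z = bz (gb (zb x) (zb y) (zb z)) := by
    intro x y z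
    simp only [gb, bz_zb]
  have hun : un gb = false := by
    by_contra hc
    apply hg
    rw [Bool.not_eq_false] at hc
    unfold un at hc
    simp only [Bool.or_eq_true, decide_eq_true_eq] at hc
    rcases hc with (hc | hc) | hc
    · refine ⟨0, fun v => g v 0 0, fun x y z => ?_⟩
      show g x y z = g x 0 0
      rw [hgb, hgb]
      exact congrArg bz (hc _ _ _ _ _)
    · refine ⟨1, fun v => g 0 v 0, fun x y z => ?_⟩
      show g x y z = g 0 y 0
      rw [hgb, hgb]
      exact congrArg bz (hc _ _ _ _ _)
    · refine ⟨2, fun v => g 0 0 v, fun x y z => ?_⟩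
      show g x y z = g 0 0 z
      rw [hgb, hgb]
      exact congrArg bz (hc _ _ _ _ _)
  obtain ⟨t, _, q, hq⟩ := key' gb hun
  have hev : ∀ (t : Tm) (x y z : ZMod 2),
      t.eval g x y z = bz (t.eval gb (zb x) (zb y) (zb z)) := by
    intro t
    induction t with
    | x => intro x y z; exact (bz_zb x).symm
    | y => intro x y z; exact (bz_zb y).symm
    | z => intro x y z; exact (bz_zb z).symm
    | op a b c iha ihb ihc =>
      intro x y z
      simp only [Tm.eval]
      rw [iha, ihb, ihc, hgb]
      simp only [zb_bz]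
  have hcl := h.term t
  have hcl' : Cl3 (fun x y z => bz (good q (zb x) (zb y) (zb z))) S := by
    have e : (fun x y z => t.eval g x y z) = fun x y z => bz (good q (zb x) (zb y) (zb z)) := by
      funext x y z
      rw [hev, hq]
    rwa [e] at hcl
  have tr : ∀ (o : ZMod 2 → ZMod 2 → ZMod 2 → ZMod 2),
      (∀ x y z, bz (good q (zb x) (zb y) (zb z)) = o x y z) → Cl3 o S := by
    intro o ho
    have e : (fun x y z => bz (good q (zb x) (zb y) (zb z))) = o := by
      funext x y z; exact ho x y z
    rwa [e] at hcl'
  unfold Min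
  fin_cases q
  · left
    intro x hx y hy
    exact tr (fun x y _ => x * y) (by decide) x hx y hy x hx
  · left
    intro x hx y hy
    exact tr (fun x _ z => x * z) (by decide) x hx x hx y hy
  · left
    intro x hx y hy
    exact tr (fun _ y z => y * z) (by decide) x hx x hx y hy
  · right; left
    intro x hx y hy
    exact tr (fun x y _ => x + y + x * y) (by decide) x hx y hy x hx
  · right; left
    intro x hx y hy
    exact tr (fun x _ z => x + z + x * z) (by decide) x hx x hx y hy
  · right; left
    intro x hx y hy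
    exact tr (fun _ y z => y + z + y * z) (by decide) x hx x hx y hy
  · right; right; left
    intro x hx y hy z hz
    exact tr (fun x y z => x * y + y * z + x * z) (by decide) x hx y hy z hz
  · right; right; right
    intro x hx y hy z hz
    exact tr (fun x y z => x + y + z) (by decide) x hx y hy z hz

/-! ### operations of any arity -/

/-- `φ` depends on at most one of its arguments -/
def EssentiallyUnary {k : ℕ} (φ : (Fin k → ZMod 2) → ZMod 2) : Prop :=
  (∃ c, ∀ x, φ x = c) ∨ ∃ (j : Fin k) (h : ZMod 2 → ZMod 2), ∀ x, φ x = h (x j)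

def minor {k : ℕ} (φ : (Fin k → ZMod 2) → ZMod 2) (π : Fin k → Fin 3) :
    ZMod 2 → ZMod 2 → ZMod 2 → ZMod 2 := fun x y z => φ (fun j => ![x, y, z] (π j))

theorem zmod2 (a : ZMod 2) : a = 0 ∨ a = 1 := by revert a; decide

theorem unary_of_minors {k : ℕ} (φ : (Fin k → ZMod 2) → ZMod 2) (h : ∀ π, Un3 (minor φ π)) :
    EssentiallyUnary φ := by
  classical
  let I : Finset (Fin k) → (Fin k → ZMod 2) := fun A j => if j ∈ A then 1 else 0
  have hI : ∀ x : Fin k → ZMod 2, x = I (univ.filter fun j => x j = 1) := by
    intro x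
    funext j
    rcases zmod2 (x j) with e | e <;> simp [I, e]
  have hpart : ∀ A B : Finset (Fin k), Disjoint A B → ∃ (m : Fin 3) (f : ZMod 2 → ZMod 2),
      φ (I ∅) = f 0 ∧ φ (I univ) = f 1 ∧ φ (I A) = f (![1, 0, 0] m) ∧
      φ (I B) = f (![0, 1, 0] m) ∧ φ (I (A ∪ B)) = f (![1, 1, 0] m) := by
    intro A B hAB
    obtain ⟨m, f, hf⟩ := h (fun j => if j ∈ A then 0 else if j ∈ B then 1 else 2)
    have hAB' : ∀ j, j ∈ A → j ∉ B := fun j hj hj' => Finset.disjoint_left.1 hAB hj hj'
    refine ⟨m, f, ?_, ?_, ?_, ?_, ?_⟩
    · have := hf 0 0 0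
      have e : (![0, 0, 0] : Fin 3 → ZMod 2) m = 0 := by fin_cases m <;> rfl
      rw [e] at this
      rw [← this]
      unfold minor
      congr 1
      funext j
      by_cases h1 : j ∈ A <;> by_cases h2 : j ∈ B <;> simp [I, h1, h2]
    · have := hf 1 1 1
      have e : (![1, 1, 1] : Fin 3 → ZMod 2) m = 1 := by fin_cases m <;> rfl
      rw [e] at this
      rw [← this]
      unfold minor
      congr 1
      funext j
      by_cases h1 : j ∈ A <;> by_cases h2 : j ∈ B <;> simp [I, h1, h2]
    · have := hf 1 0 0
      rw [← this]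
      unfold minor
      congr 1
      funext j
      by_cases h1 : j ∈ A <;> by_cases h2 : j ∈ B <;> simp [I, h1, h2]
    · have := hf 0 1 0
      rw [← this]
      unfold minor
      congr 1
      funext j
      by_cases h1 : j ∈ A
      · simp [I, h1, hAB' j h1]
      · by_cases h2 : j ∈ B <;> simp [I, h1, h2]
    · have := hf 1 1 0
      rw [← this]
      unfold minor
      congr 1
      funext j
      by_cases h1 : j ∈ A <;> by_cases h2 : j ∈ B <;> simp [I, h1, h2]
  by_cases h0 : φ (I ∅) = φ (I univ)
  · left
    refine ⟨φ (I ∅), fun x => ?_⟩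
    obtain ⟨m, f, h1, h2, h3, _, _⟩ := hpart (univ.filter fun j => x j = 1) ∅
      (Finset.disjoint_empty_right _)
    rw [← hI x] at h3
    rw [h3]
    rcases zmod2 ((![1, 0, 0] : Fin 3 → ZMod 2) m) with e | e
    · rw [e, h1]
    · rw [e, ← h2, h0]
  · right
    have hP : ∀ A B : Finset (Fin k), Disjoint A B →
        ((φ (I (A ∪ B)) = φ (I univ)) → (φ (I A) = φ (I univ) ∨ φ (I B) = φ (I univ))) ∧
        ((φ (I A) = φ (I univ)) → φ (I (A ∪ B)) = φ (I univ)) ∧
        ¬ (φ (I A) = φ (I univ) ∧ φ (I B) = φ (I univ)) := by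
      intro A B hAB
      obtain ⟨m, f, h1, h2, h3, h4, h5⟩ := hpart A B hAB
      rw [h3, h4, h5, h2]
      rw [h1, h2] at h0
      fin_cases m <;> simp [h0]
    have hex : ∀ A : Finset (Fin k), φ (I A) = φ (I univ) → ∃ j, φ (I {j}) = φ (I univ) := by
      intro A
      induction A using Finset.induction_on with
      | empty => intro h'; exact absurd h' h0
      | insert j A hj ih =>
        intro h'
        rw [Finset.insert_eq] at h'
        rcases (hP {j} A (Finset.disjoint_singleton_left.2 hj)).1 h' with e | e
        · exact ⟨j, e⟩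
        · exact ih e
    obtain ⟨j, hj⟩ := hex univ rfl
    refine ⟨j, fun v => if v = 1 then φ (I univ) else φ (I ∅), fun x => ?_⟩
    by_cases hx : x j = 1
    · show φ x = if x j = 1 then φ (I univ) else φ (I ∅)
      rw [if_pos hx]
      set A := univ.filter fun j => x j = 1 with hA
      have hjA : j ∈ A := by simp [hA, hx]
      have := (hP {j} (A.erase j) (Finset.disjoint_singleton_left.2 (by simp))).2.1 hj
      rw [← Finset.insert_eq, Finset.insert_erase hjA] at this
      rw [hI x, ← hA]
      exact this
    · show φ x = if x j = 1 then φ (I univ) else φ (I ∅)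
      rw [if_neg hx]
      set A := univ.filter fun j => x j = 1 with hA
      have hjA : j ∉ A := by simp [hA, hx]
      have h3 := (hP {j} A (Finset.disjoint_singleton_left.2 hjA)).2.2
      have h4 : φ (I A) ≠ φ (I univ) := fun e => h3 ⟨hj, e⟩
      rw [hI x, ← hA]
      rcases zmod2 (φ (I A)) with e | e <;> rcases zmod2 (φ (I univ)) with e' | e' <;>
        rcases zmod2 (φ (I ∅)) with e'' | e'' <;> rw [e, e'] at h4 <;> rw [e'', e'] at h0 <;>
        rw [e, e''] <;> first | rfl | exact absurd rfl h4 | exact absurd rfl h0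

/-- closed under an operation applied coordinate by coordinate -/
def ClosedUnder {k n : ℕ} (φ : (Fin k → ZMod 2) → ZMod 2) (S : Set (Fin n → ZMod 2)) : Prop :=
  ∀ v : Fin k → Fin n → ZMod 2, (∀ j, v j ∈ S) → (fun i => φ (fun j => v j i)) ∈ S

theorem min_of_closed {k n : ℕ} (φ : (Fin k → ZMod 2) → ZMod 2) (hφ : ¬ EssentiallyUnary φ)
    (S : Set (Fin n → ZMod 2)) (hS : ClosedUnder φ S) : Min S := by
  by_contra hc
  apply hφ
  refine unary_of_minors φ fun π => ?_
  by_contra hu
  refine hc (min_of_cl3 (g := minor φ π) ?_ hu)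
  intro x hx y hy z hz
  have h1 := hS (fun j => ![x, y, z] (π j)) (by
    intro j
    generalize π j = m
    fin_cases m
    · exact hx
    · exact hy
    · exact hz)
  have e : (fun i => φ (fun j => (![x, y, z] (π j)) i)) =
      fun i => minor φ π (x i) (y i) (z i) := by
    funext i
    unfold minor
    congr 1
    funext j
    generalize π j = m
    fin_cases m <;> rfl
  rw [e] at h1
  exact h1

end Pool.Agent.H217_LR.Clone
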