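import Pool.Agent.H217_LR.Classes
import Pool.Agent.H217_LR.Clone

/-!
# The log-rank bound for XOR functions closed under a Boolean operation
-/

set_option autoImplicit false

namespace Pool.Agent.H217_LR

open Finset Pool.Agent.TH744.LR

theorem min_prot {n : ℕ} (l : ℕ) (f : V n → Bool) (h : Clone.Min {x : V n | f x = true})
    (hl : sd (xf f) < 2 ^ l) : Prot (xf f) (4 * l ^ 3) := by
  rcases h with h | h | h | h
  · exact and_prot l f (fun x y hx hy => h x hx y hy) hl
  · exact or_prot l f (fun x y hx hy => h x hx y hy) hl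
  · exact maj_prot l f (fun x y z hx hy hz => h x hx y hy z hz) hl
  · exact aff_prot l f (fun x y z hx hy hz => h x hx y hy z hz) hl

theorem prot_not {X Y : Type} {F : X → Y → Bool} {c : ℕ} (h : Prot F c) :
    Prot (fun x y => !F x y) c := by
  obtain ⟨ow, a, b, out, h⟩ := h
  exact ⟨ow, a, b, fun t => !out t, fun x y => by
    show (!out _) = _
    rw [h x y]⟩

theorem min_prot' {n : ℕ} (l : ℕ) (f : V n → Bool) (v : Bool)
    (h : Clone.Min {x : V n | f x = v}) (hl : sd (xf f) < 2 ^ l) : Prot (xf f) (4 * l ^ 3) := by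
  cases v
  · have h1 : Clone.Min {x : V n | (!f x) = true} := by
      have e : {x : V n | (!f x) = true} = {x : V n | f x = false} := by
        ext x; simp
      rw [e]; exact h
    have h2 := min_prot l (fun x => !f x) h1 (by
      have := sd_not (xf f)
      have e : (fun x y => !xf f x y) = xf (fun x => !f x) := rfl
      rw [e] at this
      rw [this]
      exact hl)
    have h3 := prot_not h2
    have e : (fun x y => !xf (fun x => !f x) x y) = xf f := by
      funext x y
      simp [xf]
    rw [e] at h3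
    exact h3
  · exact min_prot l f h hl

/-- affine coordinates -/
theorem aff_coord {n : ℕ} (l : ℕ) (f : V n → Bool) (v : Bool) (A : V n ≃ᵃ[ZMod 2] V n)
    (h : Clone.Min {x : V n | f (A.symm x) = v}) (hl : sd (xf f) < 2 ^ l) :
    Prot (xf f) (4 * l ^ 3) := by
  have h1 := min_prot' l (fun x => f (A.symm x)) v h (by
    refine lt_of_le_of_lt ?_ hl
    refine le_trans (le_of_eq ?_) (sd_lift (xf f) (fun x => A.symm.linear x) (fun y => A.symm y))
    congr 1
    funext x y
    simp only [xf]
    congr 1
    exact A.symm.map_vadd y x)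
  have h2 := h1.lift (fun x : V n => A.linear x) (fun y : V n => A y)
  have e : (fun x y => xf (fun x => f (A.symm x)) (A.linear x) (A y)) = xf f := by
    funext x y
    simp only [xf]
    congr 1
    have := A.map_vadd y x
    simp only [vadd_eq_add] at this
    rw [← this]
    exact A.symm_apply_apply _
  rw [e] at h2
  exact h2

theorem bound {n : ℕ} (f : V n → Bool) (v : Bool) (A : V n ≃ᵃ[ZMod 2] V n)
    (h : Clone.Min {x : V n | f (A.symm x) = v}) :
    ∃ c : ℕ, Prot (xf f) c ∧ (c : ℝ) ≤ 4 * (Real.logb 2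
      ((Matrix.of (fun x y : V n => if xf f x y then (1 : ℝ) else 0)).rank : ℝ) + 1) ^ 3 := by
  by_cases h0 : sd (xf f) = 0
  · refine ⟨4 * 0 ^ 3, aff_coord 0 f v A h (by simp [h0]), ?_⟩
    have : (0 : ℝ) ≤ Real.logb 2
        ((Matrix.of (fun x y : V n => if xf f x y then (1 : ℝ) else 0)).rank : ℝ) := by
      rcases Nat.eq_zero_or_pos
        (Matrix.of (fun x y : V n => if xf f x y then (1 : ℝ) else 0)).rank with hr | hr
      · rw [hr]; simp
      · exact Real.logb_nonneg (by norm_num) (by exact_mod_cast hr)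
    simp only [ne_eq, OfNat.ofNat_ne_zero, not_false_eq_true, zero_pow, mul_zero, Nat.cast_zero]
    positivity
  · refine ⟨4 * (Nat.log 2 (sd (xf f)) + 1) ^ 3,
      aff_coord _ f v A h (Nat.lt_pow_succ_log_self (by norm_num) _), ?_⟩
    have h1 : (Nat.log 2 (sd (xf f)) : ℝ) ≤ Real.logb 2 (sd (xf f) : ℝ) := by
      exact_mod_cast Real.natLog_le_logb (sd (xf f)) 2
    have h2 : Real.logb 2 (sd (xf f) : ℝ) ≤ Real.logb 2
        ((Matrix.of (fun x y : V n => if xf f x y then (1 : ℝ) else 0)).rank : ℝ) := by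
      refine Real.logb_le_logb_of_le (by norm_num) (by exact_mod_cast Nat.pos_of_ne_zero h0) ?_
      exact_mod_cast sd_le_rank (xf f)
    push_cast
    have h3 : (0 : ℝ) ≤ (Nat.log 2 (sd (xf f)) : ℝ) + 1 := by positivity
    have := pow_le_pow_left₀ h3 (show (Nat.log 2 (sd (xf f)) : ℝ) + 1 ≤ Real.logb 2
        ((Matrix.of (fun x y : V n => if xf f x y then (1 : ℝ) else 0)).rank : ℝ) + 1 by
          linarith) 3
    linarith

end Pool.Agent.H217_LR
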