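import Mathlib

/-!
# Row differences of Boolean matrices

`sd F` is the dimension of the span of the differences of the rows of the real 0/1 matrix of `F`.
-/

set_option autoImplicit false

namespace Pool.Agent.H217_LR

open Finset

/-- the real row of `x` -/
def row {X Y : Type} (F : X → Y → Bool) (x : X) : Y → ℝ := fun y => if F x y then 1 else 0

/-- the span of the differences of the rows -/
def dspan {X Y : Type} (F : X → Y → Bool) : Submodule ℝ (Y → ℝ) :=
  Submodule.span ℝ (Set.range fun p : X × X => row F p.1 - row F p.2)

/-- the dimension of the span of the differences of the rows -/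
noncomputable def sd {X Y : Type} (F : X → Y → Bool) : ℕ := Module.finrank ℝ (dspan F)

theorem sd_lift {X Y X' Y' : Type} [Fintype Y] [Fintype Y'] (F : X → Y → Bool) (p : X' → X)
    (q : Y' → Y) : sd (fun x y => F (p x) (q y)) ≤ sd F := by
  unfold sd
  have h : dspan (fun x y => F (p x) (q y)) ≤ (dspan F).map (LinearMap.funLeft ℝ ℝ q) := by
    unfold dspan
    rw [Submodule.span_le]
    rintro _ ⟨⟨x, x'⟩, rfl⟩
    refine ⟨row F (p x) - row F (p x'), Submodule.subset_span ⟨(p x, p x'), rfl⟩, ?_⟩
    funext y
    simp [row, LinearMap.funLeft_apply]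
  exact (Submodule.finrank_mono h).trans (Submodule.finrank_map_le _ _)

theorem sd_le_rank {X Y : Type} [Fintype X] [Fintype Y] (F : X → Y → Bool) :
    sd F ≤ (Matrix.of fun (x : X) (y : Y) => if F x y then (1 : ℝ) else 0).rank := by
  rw [Matrix.rank_eq_finrank_span_row]
  refine Submodule.finrank_mono ?_
  unfold dspan
  rw [Submodule.span_le]
  rintro _ ⟨⟨x, x'⟩, rfl⟩
  exact Submodule.sub_mem _ (Submodule.subset_span ⟨x, rfl⟩) (Submodule.subset_span ⟨x', rfl⟩)

theorem sd_not {X Y : Type} (F : X → Y → Bool) : sd (fun x y => !F x y) = sd F := by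
  unfold sd
  have h : dspan (fun x y => !F x y) = dspan F := by
    unfold dspan
    have : ∀ p : X × X, row (fun x y => !F x y) p.1 - row (fun x y => !F x y) p.2 =
        row F p.2 - row F p.1 := by
      intro p
      funext y
      simp only [row, Pi.sub_apply]
      by_cases h1 : F p.1 y = true <;> by_cases h2 : F p.2 y = true <;> simp [h1, h2]
    apply le_antisymm
    · rw [Submodule.span_le]
      rintro _ ⟨⟨x, x'⟩, rfl⟩
      exact Submodule.subset_span ⟨(x', x), (this (x, x')).symm⟩
    · rw [Submodule.span_le]
      rintro _ ⟨⟨x, x'⟩, rfl⟩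
      exact Submodule.subset_span ⟨(x', x), this (x', x)⟩
  rw [h]

/-- the identity matrix -/
theorem sd_id (Z : Type) [Fintype Z] [DecidableEq Z] :
    Fintype.card Z ≤ sd (fun u v : Z => decide (u = v)) + 1 := by
  classical
  rcases isEmpty_or_nonempty Z with h | ⟨⟨z⟩⟩
  · simp
  · set F : Z → Z → Bool := fun u v => decide (u = v) with hF
    have hr : ∀ u : Z, row F u = Pi.single u (1 : ℝ) := by
      intro u
      funext v
      simp only [row, hF, Pi.single_apply, decide_eq_true_eq]
      by_cases h : u = v
      · subst h; simp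
      · have : v ≠ u := fun e => h e.symm
        simp [h, this]
    have htop : (⊤ : Submodule ℝ (Z → ℝ)) ≤ dspan F ⊔ Submodule.span ℝ {row F z} := by
      intro w _
      have : w = ∑ u, w u • row F u := by
        funext v
        simp [hr, Finset.sum_apply, Pi.single_apply]
      rw [this]
      refine Submodule.sum_mem _ fun u _ => Submodule.smul_mem _ _ ?_
      have e : row F u = (row F u - row F z) + row F z := by simp
      rw [e]
      exact Submodule.add_mem _ (Submodule.mem_sup_left (Submodule.subset_span ⟨(u, z), rfl⟩))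
        (Submodule.mem_sup_right (Submodule.mem_span_singleton_self _))
    have h1 := Submodule.finrank_mono htop
    have h2 := Submodule.finrank_add_le_finrank_add_finrank (dspan F)
      (Submodule.span ℝ {row F z})
    have h3 : Module.finrank ℝ (Submodule.span ℝ {row F z}) ≤ 1 := by
      refine (finrank_span_le_card (R := ℝ) ({row F z} : Set (Z → ℝ))).trans ?_
      simp
    rw [finrank_top, Module.finrank_fintype_fun_eq_card] at h1
    unfold sd
    omega

/-- the doubling lemma -/
theorem sd_double {X Y : Type} [Fintype Y] (G : X → Y → Bool) (c : Bool) :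
    2 * sd G ≤ sd (fun (p : Bool × X) (q : Bool × Y) => if p.1 = q.1 then c else G p.2 q.2) := by
  classical
  set H : Bool × X → Bool × Y → Bool := fun p q => if p.1 = q.1 then c else G p.2 q.2 with hH
  -- the two injections
  let j : Bool → (Y → ℝ) →ₗ[ℝ] (Bool × Y → ℝ) := fun b =>
    { toFun := fun w q => if q.1 = b then w q.2 else 0
      map_add' := by
        intro v w; funext q; by_cases h : q.1 = b <;> simp [h]
      map_smul' := by
        intro r w; funext q; by_cases h : q.1 = b <;> simp [h] }
  have hj : ∀ b, Function.Injective (j b) := by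
    intro b v w h
    funext y
    have := congrFun h (b, y)
    simpa [j] using this
  have hmap : ∀ b, (dspan G).map (j b) ≤ dspan H := by
    intro b
    unfold dspan
    rw [Submodule.map_span_le]
    rintro _ ⟨⟨x, x'⟩, rfl⟩
    refine Submodule.subset_span ⟨((!b, x), (!b, x')), ?_⟩
    funext q
    obtain ⟨q1, q2⟩ := q
    simp only [j, LinearMap.coe_mk, AddHom.coe_mk, Pi.sub_apply, row, hH]
    cases b <;> cases q1 <;> simp
  have hdisj : Disjoint ((dspan G).map (j true)) ((dspan G).map (j false)) := by
    rw [Submodule.disjoint_def]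
    rintro w ⟨u, _, rfl⟩ ⟨v, _, hv⟩
    funext q
    obtain ⟨q1, q2⟩ := q
    cases q1
    · simp [j]
    · have := congrFun hv (true, q2)
      simp only [j, LinearMap.coe_mk, AddHom.coe_mk] at this ⊢
      simp at this ⊢
      exact this.symm
  have h1 : (dspan G).map (j true) ⊔ (dspan G).map (j false) ≤ dspan H :=
    sup_le (hmap true) (hmap false)
  have h2 := Submodule.finrank_mono h1
  have h3 := Submodule.finrank_sup_add_finrank_inf_eq ((dspan G).map (j true))
    ((dspan G).map (j false))
  rw [disjoint_iff.1 hdisj, finrank_bot, add_zero] at h3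
  have h4 : ∀ b, Module.finrank ℝ ((dspan G).map (j b)) = Module.finrank ℝ (dspan G) :=
    fun b => (LinearEquiv.finrank_eq (Submodule.equivMapOfInjective (j b) (hj b) (dspan G))).symm
  rw [h4, h4] at h3
  unfold sd
  omega

theorem const_of_sd {X Y : Type} [Fintype Y] (F : X → Y → Bool) (h : sd F = 0) (x x' : X) (y : Y) :
    F x y = F x' y := by
  have h1 : dspan F = ⊥ := by
    unfold sd at h
    exact Submodule.finrank_eq_zero.1 h
  have h2 : row F x - row F x' ∈ dspan F := Submodule.subset_span ⟨(x, x'), rfl⟩
  rw [h1, Submodule.mem_bot] at h2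
  have h3 := congrFun h2 y
  simp only [row, Pi.sub_apply, Pi.zero_apply] at h3
  cases h4 : F x y <;> cases h5 : F x' y <;> simp [h4, h5] at h3 ⊢

end Pool.Agent.H217_LR
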