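import Pool.Agent.H217_LR.Sd
import Pool.Agent.TH744.LR.Prot

/-!
# XOR functions: restrictions, protocols by queries, the recursion
-/

set_option autoImplicit false

namespace Pool.Agent.H217_LR

open Finset Pool.Agent.TH744.LR

/-- `F_2^n` -/
abbrev V (n : ℕ) := Fin n → ZMod 2

/-- the XOR function of `f` -/
def xf {n : ℕ} (f : V n → Bool) : V n → V n → Bool := fun x y => f (x + y)

/-- replace the coordinates in `U` by those of `b` -/
def put {n : ℕ} (U : Finset (Fin n)) (b x : V n) : V n := fun i => if i ∈ U then b i else x i

/-- the restriction to `x = b` on `U` -/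
def restr {n : ℕ} (f : V n → Bool) (U : Finset (Fin n)) (b : V n) : V n → Bool :=
  fun x => f (put U b x)

theorem put_add {n : ℕ} (U : Finset (Fin n)) (a b x y : V n) :
    put U a x + put U b y = put U (a + b) (x + y) := by
  funext i
  by_cases h : i ∈ U <;> simp [put, h]

theorem add_self' {n : ℕ} (a : V n) : a + a = 0 := by
  funext i
  simp [CharTwo.add_self_eq_zero]

theorem z2 (a : ZMod 2) : a = 0 ∨ a = 1 := by
  revert a; decide

/-- one coordinate is queried -/
theorem query {n : ℕ} (f : V n → Bool) (i : Fin n) (c : ℕ)
    (h : ∀ v : ZMod 2, Prot (xf (fun x => f (Function.update x i v))) c) :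
    Prot (xf f) (c + 2) := by
  let tz : Bool → ZMod 2 := fun b => if b then 1 else 0
  let G : Bool → Bool → V n → V n → Bool := fun a b =>
    xf (fun x => f (Function.update x i (tz a + tz b)))
  have h1 : ∀ a, Prot (fun x y => G a (decide (y i = 1)) x y) (1 + c) := fun a =>
    Prot.bind (Prot.bob (X := V n) (fun y : V n => decide (y i = 1))) (F := fun b => G a b)
      (fun b => h _)
  have h2 := Prot.bind (Prot.alice (Y := V n) (fun x : V n => decide (x i = 1)))
    (F := fun a x y => G a (decide (y i = 1)) x y) h1
  have e : (fun x y => G (decide (x i = 1)) (decide (y i = 1)) x y) = xf f := by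
    funext x y
    simp only [G, xf]
    congr 1
    have : tz (decide (x i = 1)) + tz (decide (y i = 1)) = (x + y) i := by
      rcases z2 (x i) with hx | hx <;> rcases z2 (y i) with hy | hy <;> simp [tz, hx, hy]
    rw [this]
    exact Function.update_eq_self i (x + y)
  rw [e] at h2
  exact h2.mono (by omega)

theorem queryAll {n : ℕ} (c : ℕ) (U : Finset (Fin n)) : ∀ (f : V n → Bool),
    (∀ b, Prot (xf (restr f U b)) c) → Prot (xf f) (2 * U.card + c) := by
  classical
  induction U using Finset.induction_on with
  | empty =>
    intro f h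
    have := h 0
    have e : restr f ∅ 0 = f := by
      funext x
      unfold restr
      congr 1
    rw [e] at this
    simpa using this
  | insert i U hi ih =>
    intro f h
    rw [Finset.card_insert_of_notMem hi]
    have : Prot (xf f) ((2 * U.card + c) + 2) := by
      refine query f i _ fun v => ih _ fun b => ?_
      have := h (Function.update b i v)
      have e : restr f (insert i U) (Function.update b i v) =
          restr (fun x => f (Function.update x i v)) U b := by
        funext x
        unfold restr
        congr 1
        funext j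
        by_cases hj : j = i
        · subst hj
          simp [put]
        · by_cases hU : j ∈ U <;> simp [put, hj, hU, Function.update_of_ne]
      rwa [e] at this
    exact this.mono (by omega)

/-- a constant restriction halves the dimension of the others -/
theorem halve {n : ℕ} (f : V n → Bool) (U : Finset (Fin n)) (a b : V n) (c : Bool)
    (h : ∀ x, f (put U a x) = c) : 2 * sd (xf (restr f U b)) ≤ sd (xf f) := by
  refine (sd_double (xf (restr f U b)) c).trans ?_
  refine le_trans (le_of_eq ?_) (sd_lift (xf f)
    (fun p : Bool × V n => put U (if p.1 then a + b else 0) p.2)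
    (fun q : Bool × V n => put U (if q.1 then b else a) q.2))
  congr 1
  funext p q
  obtain ⟨s, x⟩ := p
  obtain ⟨t, y⟩ := q
  simp only [xf, put_add]
  cases s <;> cases t
  · simp [h]
  · simp [restr]
  · have : a + b + a = b := by
      rw [add_comm a b, add_assoc, add_self', add_zero]
    simp [restr, this]
  · have : a + b + b = a := by
      rw [add_assoc, add_self', add_zero]
    simp [this, h]

theorem const_xf {n : ℕ} (f : V n → Bool) (h : sd (xf f) = 0) : ∃ c, ∀ x, f x = c := by
  refine ⟨f 0, fun x => ?_⟩
  have := const_of_sd (xf f) h x 0 0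
  simpa [xf] using this

/-- the recursion -/
theorem recursion {n : ℕ} (K : (V n → Bool) → Prop) (k : ℕ → ℕ)
    (hK : ∀ f U b, K f → K (restr f U b))
    (hcert : ∀ l f, K f → sd (xf f) < 2 ^ l → (∃ c, ∀ x, f x = c) ∨
      ∃ (U : Finset (Fin n)) (a : V n) (c : Bool), U.card ≤ k l ∧ ∀ x, f (put U a x) = c) :
    ∀ l f, K f → sd (xf f) < 2 ^ l → Prot (xf f) (2 * ∑ j ∈ range l, k (j + 1)) := by
  intro l
  induction l with
  | zero =>
    intro f _ hs
    obtain ⟨c, hc⟩ := const_xf f (by simpa using hs)
    have : xf f = fun _ _ => c := by
      funext x y; exact hc _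
    rw [this]
    exact (Prot.const c).mono (by omega)
  | succ l ih =>
    intro f hf hs
    rcases hcert (l + 1) f hf hs with ⟨c, hc⟩ | ⟨U, a, c, hU, hc⟩
    · have : xf f = fun _ _ => c := by
        funext x y; exact hc _
      rw [this]
      exact (Prot.const c).mono (by omega)
    · have h1 : ∀ b, Prot (xf (restr f U b)) (2 * ∑ j ∈ range l, k (j + 1)) := by
        intro b
        refine ih _ (hK f U b hf) ?_
        have := halve f U a b c hc
        rw [pow_succ] at hs
        omega
      refine (queryAll _ U f h1).mono ?_
      rw [Finset.sum_range_succ]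
      omega

/-- an identity matrix inside -/
theorem id_inside {n : ℕ} (f : V n → Bool) {ι : Type} [Fintype ι] [DecidableEq ι]
    (φ : (ι → ZMod 2) →+ V n) (h : ∀ w, f (φ w) = decide (w = 0)) :
    2 ^ Fintype.card ι ≤ sd (xf f) + 1 := by
  have h1 := sd_id (ι → ZMod 2)
  have h2 : sd (fun u v : ι → ZMod 2 => decide (u = v)) ≤ sd (xf f) := by
    refine le_trans (le_of_eq ?_) (sd_lift (xf f) (fun u => φ u) (fun v => φ v))
    congr 1
    funext u v
    simp only [xf]
    rw [← map_add, h]
    congr 1
    rw [eq_iff_iff]
    constructor
    · rintro rfl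
      funext i
      simp [CharTwo.add_self_eq_zero]
    · intro e
      funext i
      have := congrFun e i
      simp only [Pi.add_apply, Pi.zero_apply] at this
      exact CharTwo.add_eq_zero.1 this
  have h3 : Fintype.card (ι → ZMod 2) = 2 ^ Fintype.card ι := by
    simp [ZMod.card]
  omega

theorem coid_inside {n : ℕ} (f : V n → Bool) {ι : Type} [Fintype ι] [DecidableEq ι]
    (φ : (ι → ZMod 2) →+ V n) (h : ∀ w, f (φ w) = !decide (w = 1)) :
    2 ^ Fintype.card ι ≤ sd (xf f) + 1 := by
  have h1 := sd_id (ι → ZMod 2)
  have h2 : sd (fun u v : ι → ZMod 2 => decide (u = v)) ≤ sd (xf f) := by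
    rw [← sd_not]
    refine le_trans (le_of_eq ?_) (sd_lift (xf f) (fun u => φ (u + 1)) (fun v => φ v))
    congr 1
    funext u v
    simp only [xf]
    rw [← map_add, h]
    congr 2
    rw [eq_iff_iff]
    constructor
    · rintro rfl
      funext i
      simp only [Pi.add_apply, Pi.one_apply]
      rcases z2 (u i) with e | e <;> rw [e] <;> decide
    · intro e
      funext i
      have := congrFun e i
      simp only [Pi.add_apply, Pi.one_apply] at this
      revert this
      rcases z2 (u i) with e | e <;> rcases z2 (v i) with e' | e' <;> rw [e, e'] <;> decide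
  have h3 : Fintype.card (ι → ZMod 2) = 2 ^ Fintype.card ι := by
    simp [ZMod.card]
  omega

end Pool.Agent.H217_LR
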